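import Pool.Agent.Helper77.PPS.Goals

/-!
# Project PP, packet PPS-P_HTU (Hall-Tenenbaum upper bound)
-/

set_option autoImplicit false

namespace Pool.Agent.Helper9.PPS

open Finset Real Pool.Agent.Helper77.PPS

theorem wt_nonneg {P : Type} {f : P → ℝ} (hf : ∀ q, 0 ≤ f q) (b : Finset P) : 0 ≤ wt f b :=
  Finset.prod_nonneg fun q _ => hf q

theorem nb_pos {P : Type} {N : P → ℕ} (h : ∀ q, 2 ≤ N q) (b : Finset P) : 0 < nb N b :=
  Finset.prod_pos fun q _ => by have := h q; omega

theorem log_nb {P : Type} {N : P → ℕ} (h : ∀ q, 2 ≤ N q) (b : Finset P) :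
    log (nb N b : ℝ) = ∑ q ∈ b, log (N q : ℝ) := by
  unfold nb
  rw [Nat.cast_prod, Real.log_prod]
  intro q _
  have := h q
  positivity

theorem p_htu : P_HTU := by
  classical
  intro C A
  refine ⟨|A| * |C| + 1, by positivity, ?_⟩
  intro P N hP f hf X hX
  have hC : 0 ≤ C := hP.nonneg
  have hX0 : (0 : ℝ) < X := by linarith
  have hlX : 0 < log X := log_pos (by linarith)
  have hf0 : ∀ q, 0 ≤ f q := fun q => (hf q).1
  have hAC : |A| * |C| = |A| * C := by rw [abs_of_nonneg hC]
  set Q := pr N X with hQ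
  set T := Q.powerset.filter (fun b ↦ (nb N b : ℝ) ≤ X) with hT
  have hTm : ∀ b, b ∈ T ↔ b ⊆ Q ∧ (nb N b : ℝ) ≤ X := by
    intro b
    rw [hT, Finset.mem_filter, Finset.mem_powerset]
  have hnb : ∀ b : Finset P, (0 : ℝ) < nb N b := fun b => by exact_mod_cast nb_pos hP.two b
  -- the sum with the logarithms of the norms
  have h1 : ∑ b ∈ T, wt f b * log (nb N b) ≤ ∑ b ∈ T, wt f b * (|A| * (C * (X / nb N b))) := by
    have e1 : ∑ b ∈ T, wt f b * log (nb N b) =
        ∑ q ∈ Q, ∑ b ∈ T.filter (fun b => q ∈ b), wt f b * log (N q) := by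
      calc ∑ b ∈ T, wt f b * log (nb N b)
          = ∑ b ∈ T, ∑ q ∈ Q, if q ∈ b then wt f b * log (N q) else 0 := by
            refine Finset.sum_congr rfl fun b hb => ?_
            rw [log_nb hP.two, Finset.mul_sum, ← Finset.sum_filter]
            refine Finset.sum_congr ?_ fun _ _ => rfl
            ext q
            rw [Finset.mem_filter]
            exact ⟨fun h => ⟨((hTm b).1 hb).1 h, h⟩, fun h => h.2⟩
        _ = ∑ q ∈ Q, ∑ b ∈ T, if q ∈ b then wt f b * log (N q) else 0 := Finset.sum_comm
        _ = _ := by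
            refine Finset.sum_congr rfl fun q _ => ?_
            rw [← Finset.sum_filter]
    have e2 : ∀ q ∈ Q, ∑ b ∈ T.filter (fun b => q ∈ b), wt f b * log (N q) ≤
        ∑ b ∈ T.filter (fun b => (N q : ℝ) ≤ X / nb N b), wt f b * (|A| * log (N q)) := by
      intro q _
      have hl : 0 ≤ log (N q : ℝ) := log_nonneg (by have := hP.two q; exact_mod_cast (by omega : 1 ≤ N q))
      have hinj : Set.InjOn (fun b : Finset P => b.erase q)
          (T.filter (fun b => q ∈ b) : Set (Finset P)) := by
        intro b hb c hc hbc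
        have hb' : q ∈ b := (Finset.mem_filter.1 hb).2
        have hc' : q ∈ c := (Finset.mem_filter.1 hc).2
        have hbc' : b.erase q = c.erase q := hbc
        rw [← Finset.insert_erase hb', ← Finset.insert_erase hc', hbc']
      calc ∑ b ∈ T.filter (fun b => q ∈ b), wt f b * log (N q)
          = ∑ b ∈ T.filter (fun b => q ∈ b), wt f (b.erase q) * (f q * log (N q)) := by
            refine Finset.sum_congr rfl fun b hb => ?_
            have hb' : q ∈ b := (Finset.mem_filter.1 hb).2
            have : wt f b = f q * wt f (b.erase q) := (Finset.mul_prod_erase b f hb').symm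
            rw [this]
            ring
        _ = ∑ b ∈ (T.filter (fun b => q ∈ b)).image (fun b => b.erase q),
              wt f b * (f q * log (N q)) :=
            (Finset.sum_image (f := fun b => wt f b * (f q * log (N q))) hinj).symm
        _ ≤ ∑ b ∈ T.filter (fun b => (N q : ℝ) ≤ X / nb N b), wt f b * (f q * log (N q)) := by
            refine Finset.sum_le_sum_of_subset_of_nonneg ?_ fun b _ _ =>
              mul_nonneg (wt_nonneg hf0 b) (mul_nonneg (hf0 q) hl)
            intro b' hb'
            obtain ⟨b, hb, rfl⟩ := Finset.mem_image.1 hb'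
            obtain ⟨hbT, hqb⟩ := Finset.mem_filter.1 hb
            obtain ⟨hbQ, hbX⟩ := (hTm b).1 hbT
            have hn : nb N b = N q * nb N (b.erase q) := (Finset.mul_prod_erase b N hqb).symm
            have hn' : (nb N b : ℝ) = N q * nb N (b.erase q) := by exact_mod_cast hn
            have hq1 : (1 : ℝ) ≤ N q := by
              have := hP.two q
              exact_mod_cast (by omega : 1 ≤ N q)
            refine Finset.mem_filter.2 ⟨(hTm _).2 ⟨(Finset.erase_subset _ _).trans hbQ, ?_⟩, ?_⟩
            · refine le_trans ?_ hbX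
              rw [hn']
              exact le_mul_of_one_le_left (hnb _).le hq1
            · rw [le_div_iff₀ (hnb _), ← hn']
              exact hbX
        _ ≤ _ := by
            refine Finset.sum_le_sum fun b _ => ?_
            refine mul_le_mul_of_nonneg_left ?_ (wt_nonneg hf0 b)
            exact mul_le_mul_of_nonneg_right ((hf q).2.trans (le_abs_self A)) hl
    calc ∑ b ∈ T, wt f b * log (nb N b)
        ≤ ∑ q ∈ Q, ∑ b ∈ T.filter (fun b => (N q : ℝ) ≤ X / nb N b),
            wt f b * (|A| * log (N q)) := by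
          rw [e1]
          exact Finset.sum_le_sum e2
      _ = ∑ q ∈ Q, ∑ b ∈ T, if (N q : ℝ) ≤ X / nb N b then wt f b * (|A| * log (N q)) else 0 := by
          refine Finset.sum_congr rfl fun q _ => ?_
          rw [← Finset.sum_filter]
      _ = ∑ b ∈ T, ∑ q ∈ Q, if (N q : ℝ) ≤ X / nb N b then wt f b * (|A| * log (N q)) else 0 :=
          Finset.sum_comm
      _ = ∑ b ∈ T, wt f b * (|A| * ∑ q ∈ Q.filter (fun q => (N q : ℝ) ≤ X / nb N b),
            log (N q)) := by
          refine Finset.sum_congr rfl fun b _ => ?_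
          rw [← Finset.sum_filter, Finset.mul_sum, Finset.mul_sum]
      _ ≤ _ := by
          refine Finset.sum_le_sum fun b hb => ?_
          refine mul_le_mul_of_nonneg_left ?_ (wt_nonneg hf0 b)
          refine mul_le_mul_of_nonneg_left ?_ (abs_nonneg A)
          refine hP.cheb _ _ ?_ fun q hq => (Finset.mem_filter.1 hq).2
          rw [one_le_div (hnb b)]
          exact ((hTm b).1 hb).2
  have h2 : ∑ b ∈ T, wt f b * log (X / nb N b) ≤ ∑ b ∈ T, wt f b * (X / nb N b) := by
    refine Finset.sum_le_sum fun b _ => ?_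
    refine mul_le_mul_of_nonneg_left ?_ (wt_nonneg hf0 b)
    have h3 : 0 < X / nb N b := div_pos hX0 (hnb b)
    linarith [log_le_sub_one_of_pos h3]
  have h3 : log X * ∑ b ∈ T, wt f b ≤ (|A| * |C| + 1) * X * ∑ b ∈ T, wt f b / nb N b := by
    calc log X * ∑ b ∈ T, wt f b
        = ∑ b ∈ T, wt f b * log (nb N b) + ∑ b ∈ T, wt f b * log (X / nb N b) := by
          rw [Finset.mul_sum, ← Finset.sum_add_distrib]
          refine Finset.sum_congr rfl fun b _ => ?_
          rw [log_div hX0.ne' (hnb b).ne']
          ring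
      _ ≤ ∑ b ∈ T, wt f b * (|A| * (C * (X / nb N b))) + ∑ b ∈ T, wt f b * (X / nb N b) :=
          add_le_add h1 h2
      _ = _ := by
          rw [hAC, Finset.mul_sum, ← Finset.sum_add_distrib]
          refine Finset.sum_congr rfl fun b _ => ?_
          ring
  have h4 : ∑ b ∈ T, wt f b / nb N b ≤ exp (ms N f X) := by
    have hfN : ∀ q, 0 ≤ f q / (N q : ℝ) := fun q => div_nonneg (hf0 q) (Nat.cast_nonneg _)
    calc ∑ b ∈ T, wt f b / nb N b = ∑ b ∈ T, ∏ q ∈ b, f q / (N q : ℝ) := by
          refine Finset.sum_congr rfl fun b _ => ?_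
          rw [Finset.prod_div_distrib]
          unfold wt nb
          rw [Nat.cast_prod]
      _ ≤ ∑ b ∈ Q.powerset, ∏ q ∈ b, f q / (N q : ℝ) :=
          Finset.sum_le_sum_of_subset_of_nonneg (Finset.filter_subset _ _) fun b _ _ =>
            Finset.prod_nonneg fun q _ => hfN q
      _ = ∏ q ∈ Q, (1 + f q / (N q : ℝ)) := by rw [Finset.prod_one_add]
      _ ≤ ∏ q ∈ Q, exp (f q / (N q : ℝ)) := by
          refine Finset.prod_le_prod (fun q _ => by have := hfN q; linarith) fun q _ => ?_
          linarith [add_one_le_exp (f q / (N q : ℝ))]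
      _ = exp (ms N f X) := by
          unfold ms
          rw [Real.exp_sum]
  have h5 : log X * ∑ b ∈ T, wt f b ≤ (|A| * |C| + 1) * X * exp (ms N f X) :=
    h3.trans (mul_le_mul_of_nonneg_left h4 (by positivity))
  unfold mag
  have h6 : ∑ b ∈ T, wt f b ≤ (|A| * |C| + 1) * X * exp (ms N f X) / log X := by
    rw [le_div_iff₀ hlX, mul_comm]
    exact h5
  refine h6.trans (le_of_eq ?_)
  ring

end Pool.Agent.Helper9.PPS
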